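import Mathlib
import Pool.Agent.Q230.BzT103

/-!
# Tilings of the `(n, 2n-3)`-benzel by right stones and bones

MP_7e9d3d_co, Q1: for every `n ≥ 5`, the number `T₁₀₃(n, 2n-3)` of tilings of the
`(n, 2n-3)`-benzel by right stones and the three kinds of bones is
`(3n+3) (3n-7)! / ((n-5)! (2n-1)!)`.

The definitions `benzel`, `IsRightStone`, `IsBone`, `IsTiling`, `numTilings` are in
`Pool/Agent/Q230/BzDefs.lean`.
-/

namespace Pool.Agent.Results.MP_7e9d3d_co.ClosedForm

open Q230.Benzel

theorem result (n : ℕ) (hn : 5 ≤ n) :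
    (numTilings (fun t => IsRightStone t ∨ ∃ j, IsBone j t) (benzel n (2*n-3)) : ℚ) =
      (3*n+3) * (3*n-7).factorial / ((n-5).factorial * (2*n-1).factorial) :=
  Q230.Bz.T103_final n hn

end Pool.Agent.Results.MP_7e9d3d_co.ClosedForm
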